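import Pool.Agent.Lib.H54Z.M
import Pool.Agent.Lib.H54P.Def

set_option autoImplicit false

namespace Pool.Agent.H54R

open Pool.Agent.H54Z (IsP NoRep)
open Pool.Agent.H54P (pos Fits)

/-- The threshold for the path `P`. -/
def T (t : ℕ) : ℕ := t / 8 + 1

/-- The word `g 0, ..., g (n-1)` has no match of length `T t` at distance `t`. -/
def Spine (n : ℕ) (g : ℕ → ℕ) : Prop :=
  ∀ t, 1 ≤ t → ∀ i, i + T t + t ≤ n → ∃ u, u < T t ∧ g (i + u) ≠ g (i + u + t)

variable {V : Type}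

/-- No initial stretch (length `m`) of a path which avoids `P` and ends at a neighbour of `P[j]` is
coloured like the factor of `g` read away from `j` with length `m` and far end at distance `d`,
`m ≤ d ≤ 2.3 m`. -/
def Clear (G : SimpleGraph V) (P : List V) (f : V → ℕ) (g : ℕ → ℕ) : Prop :=
  ∀ X : List V, IsP G X → (∀ x ∈ X, x ∉ P) → ∀ z, X.getLast? = some z →
    ∀ j (hj : j < P.length), G.Adj z P[j] → ∀ (up : Bool) (m d : ℕ), 1 ≤ m → m ≤ X.length →
      m ≤ d → 10 * d ≤ 23 * m → Fits P.length up j d →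
        ∃ u, u < m ∧ (X.map f).getD u 0 ≠ g (pos up j (d - m + 1 + u))

/-- The properties of the word `q` on the spine of a component which is attached at its position
`a` to the position `j` of a path with the word `g`. -/
structure QW (n a j : ℕ) (g q : ℕ → ℕ) : Prop where
  h10 : NoRep q n 1 0
  h20 : NoRep q n 2 0
  h21 : NoRep q n 2 1
  h2 : ∀ l, 2 ≤ l → NoRep q n l 2
  one : ∀ x, x < n → ∀ (up : Bool) (d : ℕ), 1 ≤ d → d ≤ 2 → q x ≠ g (pos up j d)
  left : ∀ x m, 2 ≤ m → m ≤ x + 1 → x < n → x ≤ a → ∀ (up : Bool) (d : ℕ), m ≤ d →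
    10 * (d + 1) ≤ 23 * (m + 2) → ∃ u, u < m ∧ q (x + 1 - m + u) ≠ g (pos up j (d - m + 1 + u))
  right : ∀ x m, 2 ≤ m → m ≤ x + 1 → x < n → a < x → ∀ (up : Bool) (d : ℕ), m ≤ d →
    10 * (d + 1) ≤ 23 * (m + 2) → ∃ u, u < m ∧ q (x - u) ≠ g (pos up j (d - m + 1 + u))

end Pool.Agent.H54R
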