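import Pool.Agent.Lib.H54PT.R10
import Pool.Agent.Lib.H54P.B6

set_option autoImplicit false

namespace Pool.Agent.H54R

open Pool.Agent.H54Z (IsP)

theorem main14 {V : Type} [Fintype V] (G : SimpleGraph V) (hG : G.IsTree)
    (B : ℕ → Finset V) (hcard : ∀ i, (B i).card ≤ 2 + 1) (hv : ∀ v : V, ∃ i, v ∈ B i)
    (he : ∀ u v : V, G.Adj u v → ∃ i, u ∈ B i ∧ v ∈ B i)
    (hconv : ∀ (v : V) (i j m : ℕ), i ≤ j → j ≤ m → v ∈ B i → v ∈ B m → v ∈ B j)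
    (L : V → Finset ℕ) (hL : ∀ v, 14 ≤ (L v).card) :
    ∃ f : V → ℕ, (∀ v, f v ∈ L v) ∧
      ∀ w : List V, IsP G w → ∀ a : List ℕ, a ≠ [] → w.map f ≠ a ++ a := by
  obtain ⟨l, r, hlr, hadj, hwidth⟩ := Pool.Agent.H54P.intervals G 2 B hcard hv he hconv
  obtain ⟨P, hP, -, hw⟩ := exists_path G hG.isConnected l r hlr hadj 2 hwidth
  exact assemble G hG.isAcyclic l r hlr hadj P hP hw L hL

end Pool.Agent.H54R
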