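import Pool.Agent.Lib.H54PT.R3

set_option autoImplicit false

namespace Pool.Agent.H54R

open Pool.Agent.H54Z (IsP NoRep)
open Pool.Agent.H54P (pos Fits)

variable {V : Type} {G : SimpleGraph V}

private theorem two_core {P : List V} {f : V → ℕ} {g : ℕ → ℕ}
    (hfP : ∀ i (hi : i < P.length), f P[i] = g i) (hS : Spine P.length g)
    (hC : Clear G P f g)
    {X M Y : List V} (hZ : IsP G (X ++ M ++ Y)) (hM : M ≠ []) (hX : ∀ x ∈ X, x ∉ P)
    (hY : ∀ y ∈ Y, y ∉ P) (hMP : M <:+: P) (a : List ℕ) (ha : a ≠ []) :
    (X ++ M ++ Y).map f ≠ a ++ a := by
  intro he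
  obtain ⟨A, C, rfl⟩ := hMP
  have hplen : (A ++ M ++ C).length = A.length + M.length + C.length := by
    simp; omega
  have hMlen : 1 ≤ M.length := List.length_pos_iff.2 hM
  have hget : ∀ u (hu : u < M.length) (hu' : A.length + u < (A ++ M ++ C).length),
      (A ++ M ++ C)[A.length + u] = M[u] := by
    intro u hu hu'
    rw [List.getElem_append_left (by simp; omega), List.getElem_append_right (by omega)]
    simp
  have hMmap : M.map f = (List.range M.length).map (fun u => g (A.length + u)) := by
    apply List.ext_getElem
    · simp
    · intro u h1 h2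
      rw [List.length_map] at h1
      rw [List.getElem_map, List.getElem_map, List.getElem_range, ← hget u h1 (by simp; omega),
        hfP]
  rw [List.map_append, List.map_append, hMmap] at he
  rcases word (fun u => g (A.length + u)) M.length hMlen (X.map f) (Y.map f) a ha he with
    ⟨k, m, d, hm, hmd, hd, hdp, hkm, hall⟩ | ⟨k, m, d, hm, hmd, hd, hdp, hkm, hall⟩ |
    ⟨t, i, ht, hi, hall⟩
  · rw [List.length_map] at hkm
    have hXne : X ≠ [] := by
      rintro rfl
      simp at hkm
      omega
    have hz : X.getLast? = some (X.getLast hXne) := List.getLast?_eq_some_getLast hXne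
    have hlast : (X.drop k).getLast? = some (X.getLast hXne) := by
      rw [List.getLast?_drop, if_neg (by omega), hz]
    have hadj : G.Adj (X.getLast hXne) (M.head hM) := by
      have h := hZ.1
      rw [List.isChain_append] at h
      have h2 := h.1
      rw [List.isChain_append] at h2
      exact h2.2.2 _ (by rw [hz]; simp) _ (by rw [List.head?_eq_some_head hM]; simp)
    have hg := hget 0 (by omega) (by omega)
    have hhead : M.head hM = (A ++ M ++ C)[A.length]'(by omega) := by
      rw [List.head_eq_getElem]
      exact hg.symm
    obtain ⟨u, hu, hne⟩ := hC (X.drop k) (hZ.part (by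
        refine ⟨X.take k, M ++ Y, ?_⟩
        rw [List.take_append_drop, List.append_assoc]))
      (fun x hx => hX x (List.mem_of_mem_drop hx)) _ hlast A.length (by omega)
      (by rw [← hhead]; exact hadj) false m d hm (by rw [List.length_drop]; omega) hmd hd
      (by
        show A.length + d ≤ (A ++ M ++ C).length
        omega)
    apply hne
    have e1 : ((X.drop k).map f).getD u 0 = (X.map f).getD (k + u) 0 := by
      rw [List.map_drop, List.getD_eq_getElem?_getD, List.getElem?_drop,
        List.getD_eq_getElem?_getD]
    rw [e1, hall u hu]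
    show g (A.length + (d - m + u)) = g (A.length + (d - m + 1 + u) - 1)
    congr 1
    omega
  · rw [List.length_map] at hkm
    have hYne : Y ≠ [] := by
      rintro rfl
      simp at hkm
      omega
    have hRne : Y.reverse ≠ [] := by simpa using hYne
    have hz : Y.reverse.getLast? = some (Y.head hYne) := by
      rw [List.getLast?_reverse, List.head?_eq_some_head hYne]
    have hlast : (Y.reverse.drop k).getLast? = some (Y.head hYne) := by
      rw [List.getLast?_drop, if_neg (by rw [List.length_reverse]; omega), hz]
    have hadj : G.Adj (M.getLast hM) (Y.head hYne) := by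
      have h := hZ.1
      rw [List.isChain_append] at h
      refine h.2.2 _ ?_ _ (by rw [List.head?_eq_some_head hYne]; simp)
      rw [List.getLast?_append_of_ne_nil _ hM, List.getLast?_eq_some_getLast hM]
      simp
    have hg := hget (M.length - 1) (by omega) (by omega)
    have hlastM : M.getLast hM = (A ++ M ++ C)[A.length + (M.length - 1)]'(by omega) := by
      rw [List.getLast_eq_getElem]
      exact hg.symm
    have hrev : IsP G (Y.reverse) := (hZ.part ⟨X ++ M, [], by simp⟩ : IsP G Y).reverse
    obtain ⟨u, hu, hne⟩ := hC (Y.reverse.drop k) (hrev.part (by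
        refine ⟨Y.reverse.take k, [], ?_⟩
        rw [List.take_append_drop, List.append_nil]))
      (fun x hx => hY x (List.mem_reverse.1 (List.mem_of_mem_drop hx))) _ hlast
      (A.length + (M.length - 1)) (by omega)
      (by rw [← hlastM]; exact hadj.symm) true m d hm
      (by rw [List.length_drop, List.length_reverse]; omega) hmd hd
      (by
        show d ≤ A.length + (M.length - 1) + 1
        omega)
    apply hne
    have e1 : ((Y.reverse.drop k).map f).getD u 0 = (Y.map f).reverse.getD (k + u) 0 := by
      rw [List.map_drop, List.getD_eq_getElem?_getD, List.getElem?_drop,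
        List.getD_eq_getElem?_getD, List.map_reverse]
    rw [e1, hall u hu]
    show g (A.length + (M.length - 1 - (d - m + u))) =
      g (A.length + (M.length - 1) + 1 - (d - m + 1 + u))
    congr 1
    omega
  · obtain ⟨u, hu, hne⟩ := hS t ht (A.length + i) (by omega)
    apply hne
    have := hall u hu
    rw [← Nat.add_assoc] at this
    rw [this]
    congr 1
    omega

/-- Two-level lemma.

Proof (compare `core` and the end of `caterpillar` in Lib/H54Z/M.lean).  If `l` avoids `P` use
`hN`.  Otherwise `H54Z.decomp`: `l = X ++ M ++ Y`, `M ≠ []`, `M <:+: P` or `M.reverse <:+: P`; in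
the second case reverse `l` and `a`.  `P = A ++ M ++ C`; the word of `M` is
`(List.range p).map (fun v => g (A.length + v))`, `p = M.length`.  Apply `word`.
(1) `(k, m, d)`: `X.drop k` is a path avoiding `P` which ends at a neighbour of
`M.head = P[A.length]`; `hC` with `j = A.length`, `up = false`:
`pos false j (d-m+1+u) = j + (d-m+u)`; `Fits`: `j + d ≤ P.length` since `d ≤ p`.
(2) `(k, m, d)`: `Y.reverse.drop k` ends at a neighbour of `M.getLast = P[A.length+p-1]`; `hC` with
`j = A.length + p - 1`, `up = true`: `pos true j (d-m+1+u) = j - (d-m+u)`.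
(3) `(t, i)`: contradiction to `hS` at the position `A.length + i`. -/
theorem two_level (hG : G.IsAcyclic) {P : List V} (hP : IsP G P) {f : V → ℕ} {g : ℕ → ℕ}
    (hfP : ∀ i (hi : i < P.length), f P[i] = g i) (hS : Spine P.length g)
    (hN : ∀ l : List V, IsP G l → (∀ x ∈ l, x ∉ P) → ∀ a : List ℕ, a ≠ [] → l.map f ≠ a ++ a)
    (hC : Clear G P f g) :
    ∀ l : List V, IsP G l → ∀ a : List ℕ, a ≠ [] → l.map f ≠ a ++ a := by
  intro l hl a ha he
  by_cases hmeet : ∃ z ∈ l, z ∈ P
  · obtain ⟨X, M, Y, rfl, hM, hX, hY, hMP⟩ := H54Z.decomp hG hP hl hmeet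
    rcases hMP with hMP | hMP
    · exact two_core hfP hS hC hl hM hX hY hMP a ha he
    · have hrev : IsP G (Y.reverse ++ M.reverse ++ X.reverse) := by
        have := hl.reverse
        rwa [List.reverse_append, List.reverse_append, ← List.append_assoc] at this
      refine two_core hfP hS hC hrev (by simpa using hM)
        (fun y hy => hY y (by simpa using hy)) (fun x hx => hX x (by simpa using hx)) hMP
        a.reverse (by simpa using ha) ?_
      have := congrArg List.reverse he
      rw [List.reverse_append, ← List.map_reverse, List.reverse_append, List.reverse_append,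
        ← List.append_assoc] at this
      exact this
  · push Not at hmeet
    exact hN l hl hmeet a ha he

end Pool.Agent.H54R
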