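import Pool.Agent.Lib.H54PT.Def

set_option autoImplicit false

namespace Pool.Agent.H54R

open Pool.Agent.H54Z (IsP NoRep)
open Pool.Agent.H54P (pos Fits)

variable {V : Type} {G : SimpleGraph V}

/-- No repetition inside a component: the last part of the proof of `caterpillar` in
Lib/H54Z/M.lean (`H54Z.core`, `H54Z.decomp`, `H54Z.leaves_not_adj`), word for word. -/
theorem comp_nonrep (hG : G.IsAcyclic) {Q : List V} (hQ : IsP G Q)
    (hcat : ∀ v, v ∈ Q ∨ ∃ u ∈ Q, G.Adj v u) {f : V → ℕ} {q g : ℕ → ℕ} {a j : ℕ}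
    (hq : QW Q.length a j g q) (hfQ : ∀ i (hi : i < Q.length), f Q[i] = q i)
    (hfL : ∀ v, v ∉ Q → ∀ i (hi : i < Q.length), G.Adj v Q[i] →
      f v ≠ q (i - 1) ∧ f v ≠ q i ∧ f v ≠ q (i + 1) ∧ f v ≠ q (i + 2)) :
    ∀ l : List V, IsP G l → ∀ a : List ℕ, a ≠ [] → l.map f ≠ a ++ a := by
  intro l hl a ha he
  by_cases hmeet : ∃ z ∈ l, z ∈ Q
  · obtain ⟨X, M, Y, rfl, hM, hX, hY, hMP⟩ := H54Z.decomp hG hQ hl hmeet
    rcases hMP with hMP | hMP
    · exact H54Z.core hG hQ hcat hq.h10 hq.h20 hq.h21 hq.h2 hfQ hfL hl hM hX hY hMP a ha he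
    · have hrev : IsP G (Y.reverse ++ M.reverse ++ X.reverse) := by
        have := hl.reverse
        rwa [List.reverse_append, List.reverse_append, ← List.append_assoc] at this
      refine H54Z.core hG hQ hcat hq.h10 hq.h20 hq.h21 hq.h2 hfQ hfL hrev (by simpa using hM)
        (fun y hy => hY y (by simpa using hy)) (fun x hx => hX x (by simpa using hx)) hMP
        a.reverse (by simpa using ha) ?_
      have := congrArg List.reverse he
      rw [List.reverse_append, ← List.map_reverse, List.reverse_append, List.reverse_append,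
        ← List.append_assoc] at this
      exact this
  · push_neg at hmeet
    have hlen := congrArg List.length he
    rw [List.length_map, List.length_append] at hlen
    have hapos : 1 ≤ a.length := List.length_pos_iff.2 ha
    rcases l with _ | ⟨x, _ | ⟨y, l⟩⟩
    · simp at hlen; omega
    · simp at hlen; omega
    · have h := hl.1
      rw [List.isChain_cons_cons] at h
      exact H54Z.leaves_not_adj hG hQ hcat (hmeet x (by simp)) (hmeet y (by simp)) h.1

end Pool.Agent.H54R
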