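import Pool.Agent.Lib.H54PT.Def

set_option autoImplicit false

namespace Pool.Agent.H54R

open Pool.Agent.H54Z (IsP NoRep)
open Pool.Agent.H54P (pos Fits)

variable {V : Type} {G : SimpleGraph V}

theorem R8_arith {n a j m d s e k b : ℕ} {g q w : ℕ → ℕ} {up : Bool} (hq : QW n a j g q)
    (ha : a < n) (hs : s ≤ 1) (he : e ≤ 1) (hk : 1 ≤ k) (hm : 1 ≤ m) (hmX : m ≤ s + k + e)
    (hmd : m ≤ d) (hd : 10 * d ≤ 23 * m)
    (hdir : (b + k = a + 1 ∧ ∀ u, u < k → w (s + u) = q (b + u)) ∨
      (b + 1 = a + k ∧ b < n ∧ ∀ u, u < k → w (s + u) = q (b - u)))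
    (hX1 : s = 1 → ∀ d', 1 ≤ d' → d' ≤ 5 → w 0 ≠ g (pos up j d'))
    (hY1 : e = 1 → ∀ d', 1 ≤ d' → d' ≤ 5 → w (s + k) ≠ g (pos up j d'))
    (E : ∀ u, u < m → w u = g (pos up j (d - m + 1 + u))) : False := by
  have h1 : s = 1 → m + 5 ≤ d := by
    intro h
    by_contra hcon
    exact hX1 h (d - m + 1 + 0) (by omega) (by omega) (E 0 (by omega))
  have h2 : e = 1 → m = s + k + 1 → 6 ≤ d := by
    intro h h'
    by_contra hcon
    have h3 := E (s + k) (by omega)
    have h4 : d - m + 1 + (s + k) = d := by omega
    rw [h4] at h3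
    exact hY1 h d (by omega) (by omega) h3
  obtain ⟨r, hr⟩ : ∃ r, (r = 0 ∧ m ≤ s + k) ∨ (r = 1 ∧ e = 1 ∧ m = s + k + 1) := by
    by_cases h : m ≤ s + k
    · exact ⟨0, Or.inl ⟨rfl, h⟩⟩
    · exact ⟨1, Or.inr ⟨rfl, by omega, by omega⟩⟩
  have h2' : r = 1 → 6 ≤ d := by
    intro h
    rcases hr with h' | h'
    · omega
    · exact h2 h'.2.1 h'.2.2
  obtain ⟨m', hm'⟩ : ∃ m', m' + s + r = m := ⟨m - s - r, by omega⟩
  have hm'k : m' ≤ k := by omega
  have hr1 : r ≤ 1 := by omega
  have hm1 : 1 ≤ m' := by omega
  have E' : ∀ u, u < m' → w (s + u) = g (pos up j ((d - r) - m' + 1 + u)) := by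
    intro u hu
    have h3 := E (s + u) (by omega)
    have h4 : d - m + 1 + (s + u) = (d - r) - m' + 1 + u := by omega
    rw [h4] at h3
    exact h3
  by_cases hc : m' = 1
  · have hs0 : s = 0 := by omega
    have hr0 : r = 0 := by omega
    have h3 := E' 0 (by omega)
    have h4 : (d - r) - m' + 1 + 0 = d := by omega
    rw [h4] at h3
    rcases hdir with ⟨hb, h⟩ | ⟨hb, hbn, h⟩
    · have h5 := h 0 (by omega)
      rw [h3] at h5
      exact hq.one (b + 0) (by omega) up d (by omega) (by omega) h5.symm
    · have h5 := h 0 (by omega)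
      rw [h3] at h5
      exact hq.one (b - 0) (by omega) up d (by omega) (by omega) h5.symm
  · rcases hdir with ⟨hb, h⟩ | ⟨hb, hbn, h⟩
    · obtain ⟨u, hu, hne⟩ := hq.left (b + m' - 1) m' (by omega) (by omega) (by omega) (by omega)
        up (d - r) (by omega) (by omega)
      apply hne
      rw [← E' u hu, h u (by omega)]
      exact congrArg q (by omega)
    · obtain ⟨u, hu, hne⟩ := hq.right b m' (by omega) (by omega) (by omega) (by omega)
        up (d - r) (by omega) (by omega)
      apply hne
      rw [← E' u hu, h u (by omega)]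

theorem R8_short (hG : G.IsAcyclic) {Q : List V} (hQ : IsP G Q)
    (hcat : ∀ v, v ∈ Q ∨ ∃ u ∈ Q, G.Adj v u) (Z : List V) (hZ : IsP G Z)
    (hn : ∀ z ∈ Z, z ∉ Q) : Z.length ≤ 1 := by
  rcases Z with _ | ⟨x, _ | ⟨y, Z⟩⟩
  · simp
  · simp
  · exfalso
    have h := hZ.1
    rw [List.isChain_cons_cons] at h
    exact Pool.Agent.H54Z.leaves_not_adj hG hQ hcat (hn x (by simp)) (hn y (by simp)) h.1

/-- A path `X` in a component (spine `Q`) which ends at the attachment vertex `z` (`z = Q[a]`, or
`z` is a leaf at `Q[a]`) does not start like a factor of `g` near `j`.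

Proof.  Structure of `X`: if `X` does not meet `Q` then `X = [z]` (`H54Z.leaves_not_adj`), `m = 1`,
`d ≤ 2`: `hfd`.  Otherwise `X = X1 ++ M ++ Y1` (`H54Z.decomp`) with `X1`, `Y1` of length at most 1
(leaves) and `M` a factor of `Q` or of its reverse; `M.getLast` is `Q[a]`: if `Y1 = []` it is `z`,
so `z ∈ Q` and `z = Q[a]` (nodup), otherwise `Y1 = [z]`, `z ∉ Q` and `M.getLast = Q[a]` by
`H54Z.attach_unique`.  So `M = [Q[b], Q[b+1], ..., Q[a]]` (`b ≤ a`) or
`M = [Q[b], Q[b-1], ..., Q[a]]` (`b ≥ a`).  Suppose the first `m` letters of `X` are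
`g (pos up j (d-m+1+u))`, `u < m`.
If `X1 = [v]` (a leaf): if `m = 1` or `m = 2`, or (`m = 3` and the third element is `z ∉ Q`), then
the letter of `v` is at distance `d - m + 1 ≤ 5` (`d ≤ 2`, `4`, `6`): `hfd`.
If the last of the `m` elements is `z ∉ Q` (so `m = X.length`), its letter is at distance `d`, and
`d ≤ 4` if `m ≤ 2` (one element of `Q` before it): `hfd`.
In the remaining cases let `m'` be the number of elements of `Q` among the first `m` elements of
`X`; they are consecutive in `Q`, directed towards `Q[a]`, and are equal to the factor with far end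
at distance `d' = d` or `d - 1` (if `z ∉ Q` is the last one).  If `m' = 1`: then `m = 1` (all other
cases with `m' = 1` are treated above), `d ≤ 2`: `hq.one`.  If `m' ≥ 2`: `m' ≤ d'` and
`10 (d' + 1) ≤ 23 (m' + 2)` in all cases (`m = m'`: `10 (d+1) ≤ 23 m + 10`; `m = m' + 1`, leaf
first: `10 (d+1) ≤ 23 (m'+1) + 10`; `z` last: `10 d ≤ 23 (m'+1)`; both: `10 d ≤ 23 (m'+2)`):
`hq.left` with `x` = the last index `≤ a` of the stretch (forward case) or `hq.right` with `x` =
its first index `> a` (backward case; if the stretch has `m' ≥ 2` elements its first index is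
`> a`). -/
theorem comp_clear (hG : G.IsAcyclic) {Q : List V} (hQ : IsP G Q)
    (hcat : ∀ v, v ∈ Q ∨ ∃ u ∈ Q, G.Adj v u) {f : V → ℕ} {q g : ℕ → ℕ} {a j : ℕ}
    (ha : a < Q.length) (hq : QW Q.length a j g q) (hfQ : ∀ i (hi : i < Q.length), f Q[i] = q i)
    (hfd : ∀ v, v ∉ Q → ∀ (up : Bool) (d : ℕ), 1 ≤ d → d ≤ 5 → f v ≠ g (pos up j d))
    {z : V} (hz : z = Q[a] ∨ (z ∉ Q ∧ G.Adj z Q[a])) (X : List V) (hX : IsP G X)
    (hXz : X.getLast? = some z) (up : Bool) (m d : ℕ) (hm : 1 ≤ m) (hmX : m ≤ X.length)
    (hmd : m ≤ d) (hd : 10 * d ≤ 23 * m) :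
    ∃ u, u < m ∧ (X.map f).getD u 0 ≠ g (pos up j (d - m + 1 + u)) := by
  by_contra hcon
  simp only [not_exists, not_and, not_not] at hcon
  by_cases hmeet : ∃ x ∈ X, x ∈ Q
  · obtain ⟨X1, M, Y1, rfl, hM, hX1, hY1, hMQ⟩ := Pool.Agent.H54Z.decomp hG hQ hX hmeet
    have hMlen : 1 ≤ M.length := List.length_pos_iff.2 hM
    have hX1l : X1.length ≤ 1 :=
      R8_short hG hQ hcat X1 (hX.part ⟨[], M ++ Y1, by simp⟩) hX1
    have hY1l : Y1.length ≤ 1 :=
      R8_short hG hQ hcat Y1 (hX.part ⟨X1 ++ M, [], by simp⟩) hY1
    have hMsub : ∀ x ∈ M, x ∈ Q := by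
      intro x hx
      rcases hMQ with h | h
      · exact h.subset hx
      · exact h.subset (List.mem_reverse.2 hx)
    have hlast : M[M.length - 1] = Q[a] := by
      rcases Y1 with _ | ⟨y, Y'⟩
      · rw [List.append_nil, List.getLast?_append_of_ne_nil _ hM, List.getLast?_eq_getElem?,
          List.getElem?_eq_getElem (by omega)] at hXz
        have h1 : M[M.length - 1] = z := Option.some.inj hXz
        rcases hz with h | h
        · rw [h1, h]
        · exact absurd (hMsub z (h1 ▸ List.getElem_mem _)) h.1
      · obtain rfl : Y' = [] := by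
          rcases Y' with _ | ⟨y', Y'⟩
          · rfl
          · simp at hY1l
        have h1 : y = z := by
          rw [List.getLast?_append_of_ne_nil _ (by simp)] at hXz
          simpa using hXz
        subst h1
        have hyQ : y ∉ Q := hY1 y (by simp)
        rcases hz with h | h
        · exact absurd (h ▸ List.getElem_mem _) hyQ
        · have h2 : M[M.length - 1] ∈ Q := hMsub _ (List.getElem_mem _)
          obtain ⟨i, hi, hi'⟩ := List.mem_iff_getElem.1 h2
          have h3 := hX.1
          rw [List.isChain_append] at h3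
          have hl : (X1 ++ M).getLast? = some M[M.length - 1] := by
            rw [List.getLast?_append_of_ne_nil _ hM, List.getLast?_eq_getElem?,
              List.getElem?_eq_getElem (by omega)]
          have hadj := h3.2.2 M[M.length - 1] (by rw [hl]; simp) y (by simp)
          rw [← hi'] at hadj
          have h4 : i = a := Pool.Agent.H54Z.attach_unique hG hQ (l := [y])
            ⟨by simp, by simp⟩ (by simpa using hyQ) (x := y) (y := y) (by simp) (by simp) hi ha
            hadj.symm h.2
          subst h4
          exact hi'.symm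
    -- the letters
    have hget : ∀ u (hu : u < (X1 ++ M ++ Y1).length),
        ((X1 ++ M ++ Y1).map f).getD u 0 = f (X1 ++ M ++ Y1)[u] := by
      intro u hu
      rw [List.getD_eq_getElem _ _ (by simpa using hu), List.getElem_map]
    have hlen : (X1 ++ M ++ Y1).length = X1.length + M.length + Y1.length := by
      simp only [List.length_append]
    have hwM : ∀ u (hu : u < M.length),
        ((X1 ++ M ++ Y1).map f).getD (X1.length + u) 0 = f M[u] := by
      intro u hu
      rw [hget _ (by omega)]
      congr 1
      rw [List.getElem_append_left (by simp; omega), List.getElem_append_right (by omega)]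
      simp
    have hdir : ∃ b, (b + M.length = a + 1 ∧ ∀ u, u < M.length →
          ((X1 ++ M ++ Y1).map f).getD (X1.length + u) 0 = q (b + u)) ∨
        (b + 1 = a + M.length ∧ b < Q.length ∧ ∀ u, u < M.length →
          ((X1 ++ M ++ Y1).map f).getD (X1.length + u) 0 = q (b - u)) := by
      rcases hMQ with ⟨A, C, hAC⟩ | ⟨A, C, hAC⟩
      · have hQl : Q.length = A.length + M.length + C.length := by
          rw [← hAC]; simp only [List.length_append]
        have hQM : ∀ u (hu : u < M.length), Q[A.length + u] = M[u] := by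
          intro u hu
          have : ∀ (Q' : List V) (hQ' : A ++ M ++ C = Q') (hh : A.length + u < Q'.length),
              Q'[A.length + u] = M[u] := by
            rintro _ rfl hh
            rw [List.getElem_append_left (by simp; omega), List.getElem_append_right (by omega)]
            simp
          exact this Q hAC _
        have h5 : A.length + (M.length - 1) = a := by
          have h6 := hQM (M.length - 1) (by omega)
          rw [hlast] at h6
          exact (hQ.2.getElem_inj_iff).1 h6
        refine ⟨A.length, Or.inl ⟨by omega, fun u hu => ?_⟩⟩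
        rw [hwM u hu, ← hQM u hu]
        exact hfQ _ _
      · have hQl : Q.length = A.length + M.length + C.length := by
          rw [← hAC]; simp only [List.length_append, List.length_reverse]
        have hQM : ∀ u (hu : u < M.length), Q[A.length + (M.length - 1 - u)] = M[u] := by
          intro u hu
          have : ∀ (Q' : List V) (hQ' : A ++ M.reverse ++ C = Q')
              (hh : A.length + (M.length - 1 - u) < Q'.length),
              Q'[A.length + (M.length - 1 - u)] = M[u] := by
            rintro _ rfl hh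
            rw [List.getElem_append_left (by simp; omega), List.getElem_append_right (by omega)]
            rw [List.getElem_reverse]
            congr 1
            omega
          exact this Q hAC _
        have h5 : A.length + (M.length - 1 - (M.length - 1)) = a := by
          have h6 := hQM (M.length - 1) (by omega)
          rw [hlast] at h6
          exact (hQ.2.getElem_inj_iff).1 h6
        refine ⟨A.length + (M.length - 1), Or.inr ⟨by omega, by omega, fun u hu => ?_⟩⟩
        rw [hwM u hu, ← hQM u hu, hfQ _ (by omega)]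
        exact congrArg q (by omega)
    obtain ⟨b, hdir⟩ := hdir
    refine R8_arith (w := fun u => ((X1 ++ M ++ Y1).map f).getD u 0) (up := up)
      (s := X1.length) (e := Y1.length) (k := M.length) hq ha hX1l hY1l hMlen hm
      (by omega) hmd hd hdir ?_ ?_ hcon
    · intro hs d' h1 h2
      obtain ⟨x, rfl⟩ := List.length_eq_one_iff.1 hs
      simpa using hfd x (hX1 x (by simp)) up d' h1 h2
    · intro he d' h1 h2
      obtain ⟨y, rfl⟩ := List.length_eq_one_iff.1 he
      have h3 : ((X1 ++ M ++ [y]).map f).getD (X1.length + M.length) 0 = f y := by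
        rw [hget _ (by simp)]
        congr 1
        rw [List.getElem_append_right (by simp)]
        simp
      simp only [h3]
      exact hfd y (hY1 y (by simp)) up d' h1 h2
  · have hn : ∀ x ∈ X, x ∉ Q := fun x hx hxQ => hmeet ⟨x, hx, hxQ⟩
    have hl := R8_short hG hQ hcat X hX hn
    have hm1 : m = 1 := by omega
    obtain ⟨x, rfl⟩ := List.length_eq_one_iff.1 (by omega : X.length = 1)
    have h0 := hcon 0 (by omega)
    have h4 : d - m + 1 + 0 = d := by omega
    rw [h4] at h0
    exact hfd x (hn x (by simp)) up d (by omega) (by omega) (by simpa using h0)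

end Pool.Agent.H54R
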