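import Pool.Agent.Lib.H54PT.R6
import Pool.Agent.Lib.H54PT.R7
import Pool.Agent.Lib.H54PT.R8

set_option autoImplicit false

namespace Pool.Agent.H54R

open Pool.Agent.H54Z (IsP NoRep)
open Pool.Agent.H54P (pos Fits)

/-- A component: colouring with both properties.

Proof.  `z ∈ Q`: `a` with `z = Q[a]`; `z ∉ Q`: `hcat` gives `a` with `G.Adj z Q[a]`.  Then
`comp_colour`, `comp_nonrep`, `comp_clear`. -/
theorem comp {W : Type} (H : SimpleGraph W) (hH : H.IsAcyclic) (Q : List W) (hQ : IsP H Q)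
    (hcat : ∀ v, v ∈ Q ∨ ∃ u ∈ Q, H.Adj v u) (L : W → Finset ℕ) (hL : ∀ v, 14 ≤ (L v).card)
    (z : W) (j : ℕ) (g : ℕ → ℕ) :
    ∃ f : W → ℕ, (∀ v, f v ∈ L v) ∧
      (∀ l : List W, IsP H l → ∀ a : List ℕ, a ≠ [] → l.map f ≠ a ++ a) ∧
      ∀ X : List W, IsP H X → X.getLast? = some z → ∀ (up : Bool) (m d : ℕ), 1 ≤ m →
        m ≤ X.length → m ≤ d → 10 * d ≤ 23 * m →
          ∃ u, u < m ∧ (X.map f).getD u 0 ≠ g (pos up j (d - m + 1 + u)) := by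
  classical
  obtain ⟨a, ha, hz⟩ : ∃ a, ∃ ha : a < Q.length, z = Q[a] ∨ (z ∉ Q ∧ H.Adj z Q[a]) := by
    by_cases hzQ : z ∈ Q
    · obtain ⟨a, ha, he⟩ := List.getElem_of_mem hzQ
      exact ⟨a, ha, Or.inl he.symm⟩
    · rcases hcat z with h | ⟨u, hu, huz⟩
      · exact absurd h hzQ
      · obtain ⟨a, ha, he⟩ := List.getElem_of_mem hu
        exact ⟨a, ha, Or.inr ⟨hzQ, by rw [he]; exact huz⟩⟩
  obtain ⟨f, q, hfL, hq, hfQ, hf4, hfd⟩ := comp_colour hH hQ hcat L hL a j g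
  exact ⟨f, hfL, comp_nonrep hH hQ hcat hq hfQ hf4, fun X hX hXz up m d hm hmX hmd hd =>
    comp_clear hH hQ hcat ha hq hfQ hfd hz X hX hXz up m d hm hmX hmd hd⟩

end Pool.Agent.H54R
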