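import Pool.Agent.Lib.H54Z.T1
import Pool.Agent.Lib.H54P.B1

set_option autoImplicit false

namespace Pool.Agent.H54R

open Pool.Agent.H54Z (IsP)

variable {W : Type}

private theorem walk_cover (H : SimpleGraph W) (l r : W → ℕ)
    (hI : ∀ u v, H.Adj u v → l u ≤ r v ∧ l v ≤ r u) {s t : W} (p : H.Walk s t) (i : ℕ)
    (h1 : l s ≤ i) (h2 : i ≤ r t) : ∃ w ∈ p.support, l w ≤ i ∧ i ≤ r w := by
  induction p with
  | nil => exact ⟨_, by simp, h1, h2⟩
  | @cons a c d h q ih =>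
    by_cases hr : i ≤ r a
    · exact ⟨a, by simp, h1, hr⟩
    · have h3 : l c ≤ i := ((hI a c h).2).trans (by omega)
      obtain ⟨w, hw, hw1, hw2⟩ := ih h3 h2
      exact ⟨w, by rw [SimpleGraph.Walk.support_cons]; exact List.mem_cons_of_mem _ hw, hw1, hw2⟩

/-- A path which meets every bag.

Proof.  Let `s` have the least `l s`, `t` the greatest `r t` (`W` is finite and not empty), `Q` a
path from `s` to `t` (`H.Connected`; the support of a path).  If `l v ≤ i ≤ r v` for some `v ∉ Q`,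
then `l s ≤ i ≤ r t`, and some vertex of `Q` contains `i` (otherwise all vertices of `Q` would have
`r < i`, starting from `s`, since consecutive intervals intersect), so the set for `Q` together
with this vertex is contained in the set of all vertices containing `i`. -/
theorem exists_path [Fintype W] (H : SimpleGraph W) (hc : H.Connected) (l r : W → ℕ)
    (hlr : ∀ v, l v ≤ r v) (hI : ∀ u v, H.Adj u v → l u ≤ r v ∧ l v ≤ r u) (b : ℕ)
    (hw : ∀ i, {v | l v ≤ i ∧ i ≤ r v}.ncard ≤ b + 1) :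
    ∃ Q : List W, IsP H Q ∧ Q ≠ [] ∧ ∀ i, {v | v ∉ Q ∧ l v ≤ i ∧ i ≤ r v}.ncard ≤ b := by
  classical
  haveI : Nonempty W := hc.nonempty
  obtain ⟨s, hs⟩ := Finite.exists_min l
  obtain ⟨t, ht⟩ := Finite.exists_max r
  obtain ⟨p⟩ := hc.preconnected s t
  obtain ⟨q, hq⟩ : ∃ q : H.Walk s t, q.IsPath := ⟨p.toPath.1, p.toPath.2⟩
  refine ⟨q.support, ⟨q.isChain_adj_support, hq.support_nodup⟩, q.support_ne_nil, ?_⟩
  intro i
  rcases Set.eq_empty_or_nonempty {v | v ∉ q.support ∧ l v ≤ i ∧ i ≤ r v} with h0 | ⟨v, hv⟩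
  · rw [h0, Set.ncard_empty]
    exact Nat.zero_le b
  · obtain ⟨w, hwq, hw1, hw2⟩ := walk_cover H l r hI q i ((hs v).trans hv.2.1) (hv.2.2.trans (ht v))
    have hsub : insert w {v | v ∉ q.support ∧ l v ≤ i ∧ i ≤ r v} ⊆ {v | l v ≤ i ∧ i ≤ r v} := by
      rintro x (rfl | hx)
      · exact ⟨hw1, hw2⟩
      · exact hx.2
    have hnot : w ∉ {v | v ∉ q.support ∧ l v ≤ i ∧ i ≤ r v} := fun hx => hx.1 hwq
    have h1 := Set.ncard_insert_of_notMem hnot (Set.toFinite _)
    have h2 := Set.ncard_le_ncard hsub (Set.toFinite _)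
    have h3 := hw i
    omega

/-- Width at most 2: a caterpillar.

Proof.  `exists_path` with `b = 1`.  Let `v ∉ Q`.  Since `Q ≠ []` and `H` is connected, `v` has a
neighbour `u`; if `u ∉ Q` the intervals of `u`, `v` have a common index `max (l u) (l v)`, which
gives two elements in the set of width at most 1. -/
theorem exists_cat [Fintype W] (H : SimpleGraph W) (hc : H.Connected) (l r : W → ℕ)
    (hlr : ∀ v, l v ≤ r v) (hI : ∀ u v, H.Adj u v → l u ≤ r v ∧ l v ≤ r u)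
    (hw : ∀ i, {v | l v ≤ i ∧ i ≤ r v}.ncard ≤ 2) :
    ∃ Q : List W, IsP H Q ∧ Q ≠ [] ∧ ∀ v, v ∈ Q ∨ ∃ u ∈ Q, H.Adj v u := by
  classical
  obtain ⟨Q, hQ, hne, hQ1⟩ := exists_path H hc l r hlr hI 1 hw
  refine ⟨Q, hQ, hne, fun v => ?_⟩
  by_cases hv : v ∈ Q
  · exact Or.inl hv
  right
  obtain ⟨x, hx⟩ := List.exists_mem_of_ne_nil Q hne
  obtain ⟨p⟩ := hc.preconnected v x
  obtain ⟨u, hu⟩ : ∃ u, H.Adj v u := by
    cases p with
    | nil => exact absurd hx hv
    | cons h _ => exact ⟨_, h⟩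
  by_cases huQ : u ∈ Q
  · exact ⟨u, huQ, hu⟩
  exfalso
  have h1 := hQ1 (max (l u) (l v))
  have hsub : ({v, u} : Set W) ⊆ {z | z ∉ Q ∧ l z ≤ max (l u) (l v) ∧ max (l u) (l v) ≤ r z} := by
    rintro z (rfl | hz)
    · exact ⟨hv, le_max_right _ _, max_le (hI z u hu).2 (hlr z)⟩
    · rw [Set.mem_singleton_iff] at hz
      subst hz
      exact ⟨huQ, le_max_left _ _, max_le (hlr z) (hI v z hu).1⟩
  have h2 := Set.ncard_le_ncard hsub (Set.toFinite _)
  rw [Set.ncard_pair hu.ne] at h2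
  omega

end Pool.Agent.H54R
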