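import Pool.Agent.Lib.H54PT.R1
import Pool.Agent.Lib.H54PT.R4
import Pool.Agent.Lib.H54PT.R9
import Pool.Agent.Lib.H54PT.S1

set_option autoImplicit false

namespace Pool.Agent.H54R

open Pool.Agent.H54Z (IsP NoRep)
open Pool.Agent.H54P (pos Fits)

/-- `G` without the vertices of `P`. -/
private abbrev RG {V : Type} (G : SimpleGraph V) (P : List V) : SimpleGraph {v | v ∉ P} :=
  G.induce {v | v ∉ P}

/-- A path which avoids `P` is a path in one component of `G - P`. -/
private theorem lift_path {V : Type} {G : SimpleGraph V} {P : List V} : ∀ l : List V, l ≠ [] →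
    l.IsChain G.Adj → (∀ x ∈ l, x ∉ P) → ∃ C : (RG G P).ConnectedComponent, ∃ l' : List C,
      l'.map (fun x => (x.1.1 : V)) = l ∧ l'.IsChain C.toSimpleGraph.Adj := by
  intro l
  induction l with
  | nil => intro h; exact absurd rfl h
  | cons a l ih =>
    intro _ h hP
    have ha : a ∉ P := hP a (by simp)
    rcases l with _ | ⟨b, l⟩
    · refine ⟨(RG G P).connectedComponentMk ⟨a, ha⟩, [⟨⟨a, ha⟩, rfl⟩], by simp, by simp⟩
    · rw [List.isChain_cons_cons] at h
      obtain ⟨C, l', h1, h2⟩ := ih (by simp) h.2 (fun x hx => hP x (List.mem_cons_of_mem _ hx))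
      rcases l' with _ | ⟨x, l'⟩
      · simp at h1
      · rw [List.map_cons, List.cons.injEq] at h1
        have hadj : (RG G P).Adj ⟨a, ha⟩ x.1 := by
          show G.Adj a x.1.1
          rw [h1.1]
          exact h.1
        have hmem : (⟨a, ha⟩ : {v | v ∉ P}) ∈ C := C.mem_supp_of_adj_mem_supp x.2 hadj.symm
        refine ⟨C, ⟨⟨a, ha⟩, hmem⟩ :: x :: l', ?_, ?_⟩
        · rw [List.map_cons, List.map_cons, h1.1, h1.2]
        · rw [List.isChain_cons_cons]
          exact ⟨hadj, h2⟩

private theorem val_inj {V : Type} {G : SimpleGraph V} {P : List V}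
    (C : (RG G P).ConnectedComponent) : Function.Injective (fun x : C => (x.1.1 : V)) :=
  fun _ _ h => Subtype.ext (Subtype.ext h)

/-- The attaching edge of a component is unique. -/
private theorem attach {V : Type} {G : SimpleGraph V} (hG : G.IsAcyclic) {P : List V}
    (hP : IsP G P) (C : (RG G P).ConnectedComponent) (x y : C) {i j : ℕ} (hi : i < P.length)
    (hj : j < P.length) (h1 : G.Adj x.1.1 P[i]) (h2 : G.Adj y.1.1 P[j]) : x = y ∧ i = j := by
  classical
  obtain ⟨w⟩ := C.connected_toSimpleGraph.preconnected x y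
  obtain ⟨s, hsne, hsch, hsnd, hsh, hsl⟩ : ∃ s : List C, s ≠ [] ∧
      s.IsChain (fun a b : C => G.Adj a.1.1 b.1.1) ∧ s.Nodup ∧ s.head? = some x ∧
      s.getLast? = some y := by
    refine ⟨(w.toPath : C.toSimpleGraph.Walk x y).support, SimpleGraph.Walk.support_ne_nil _, ?_,
      w.toPath.2.support_nodup, ?_, ?_⟩
    · exact (SimpleGraph.Walk.isChain_adj_support (w.toPath : C.toSimpleGraph.Walk x y)).imp
        (fun {a b} (hab : C.toSimpleGraph.Adj a b) => (hab : G.Adj a.1.1 b.1.1))
    · rw [List.head?_eq_some_head (SimpleGraph.Walk.support_ne_nil _),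
        SimpleGraph.Walk.head_support]
    · rw [List.getLast?_eq_some_getLast (SimpleGraph.Walk.support_ne_nil _),
        SimpleGraph.Walk.getLast_support]
  set l := s.map (fun x => (x.1.1 : V)) with hl
  have hpath : IsP G l := by
    refine ⟨?_, hsnd.map (val_inj C)⟩
    rw [hl, List.isChain_map]
    exact hsch
  have hd : ∀ v ∈ l, v ∉ P := by
    intro v hv
    obtain ⟨u, -, rfl⟩ := List.mem_map.1 hv
    exact u.1.2
  have hhead : l.head? = some x.1.1 := by
    rw [hl, List.head?_map, hsh]
    rfl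
  have hlast : l.getLast? = some y.1.1 := by
    rw [hl, List.getLast?_map, hsl]
    rfl
  have hij : i = j := Pool.Agent.H54Z.attach_unique hG hP hpath hd hhead hlast hi hj h1 h2
  subst hij
  refine ⟨?_, rfl⟩
  have hlne : l ≠ [] := by rw [hl]; simpa using hsne
  have hA : IsP G (l ++ [P[i]]) := by
    refine ⟨?_, ?_⟩
    · rw [List.isChain_append]
      refine ⟨hpath.1, List.isChain_singleton _, ?_⟩
      intro a ha b hb
      rw [hlast] at ha
      simp only [List.head?_cons] at hb
      obtain rfl := Option.some.inj ha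
      obtain rfl := Option.some.inj hb
      exact h2
    · rw [List.nodup_append]
      refine ⟨hpath.2, List.nodup_singleton _, ?_⟩
      intro a ha b hb
      rw [List.mem_singleton] at hb
      subst hb
      rintro rfl
      exact hd _ ha (List.getElem_mem _)
  have hB : IsP G [x.1.1, P[i]] := by
    refine ⟨by simpa using h1, ?_⟩
    simp only [List.nodup_cons, List.mem_singleton, List.not_mem_nil, not_false_eq_true,
      List.nodup_nil, and_true]
    exact h1.ne
  have he := Pool.Agent.H54Z.uniq hG hA hB (by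
    rw [List.head?_append_of_ne_nil _ hlne, hhead]
    rfl) (by
    rw [List.getLast?_append]
    simp)
  have he2 : l = [x.1.1] := by
    have : l ++ [P[i]] = [x.1.1] ++ [P[i]] := he
    exact List.append_cancel_right this
  rw [he2] at hlast
  exact val_inj C (Option.some.inj hlast)

/-- Assembly: all components of `G - P`.

Proof.  Let `G' = G.induce {v | v ∉ P}` and let `C` run over its connected components.  For every
`C` the graph `H = G'.induce C.supp` is connected and acyclic, its width is at most 2 (`hw`; the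
map to `V` is injective), so `exists_cat` gives `Q`.  If some vertex of `C` is adjacent to some
`P[j]` choose such a pair `(z, j)` (it is unique by `H54Z.attach_unique`: two vertices `x`, `y` of
`C` adjacent to `P[i]`, `P[j]` are joined by a path in `C`, so `i = j`; and `x = y`, since otherwise
there would be a cycle, `IsAcyclic`: use `H54Z.uniq` for the two paths from `x` to `P[i]`, one
direct, one through `y`); otherwise take any `z`, `j = 0`.  `comp` gives `f_C`.  Put
`f v = g (P.idxOf v)` for `v ∈ P` and `f v = f_C v` for `v` in `C`.  A path avoiding `P` lies in one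
component (`hN` of `two_level`), and a path avoiding `P` whose last vertex is adjacent to `P[j]`
ends at the chosen `z` of its component with the chosen `j` (`hC`). -/
theorem assemble {V : Type} [Fintype V] (G : SimpleGraph V) (hG : G.IsAcyclic) (l r : V → ℕ)
    (hlr : ∀ v, l v ≤ r v) (hI : ∀ u v, G.Adj u v → l u ≤ r v ∧ l v ≤ r u) (P : List V)
    (hP : IsP G P) (hw : ∀ i, {v | v ∉ P ∧ l v ≤ i ∧ i ≤ r v}.ncard ≤ 2)
    (L : V → Finset ℕ) (hL : ∀ v, 14 ≤ (L v).card) :
    ∃ f : V → ℕ, (∀ v, f v ∈ L v) ∧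
      ∀ w : List V, IsP G w → ∀ a : List ℕ, a ≠ [] → w.map f ≠ a ++ a := by
  classical
  obtain ⟨g, hg, hS⟩ := countP P.length
    (fun i => if h : i < P.length then L P[i] else ∅) (by
      intro i hi
      simp only [hi, dif_pos]
      exact hL _)
  have hAG : (RG G P).IsAcyclic := hG.induce _
  have hcomp : ∀ C : (RG G P).ConnectedComponent, ∃ fC : C → ℕ, (∀ v, fC v ∈ L v.1.1) ∧
      (∀ l : List C, IsP C.toSimpleGraph l → ∀ a : List ℕ, a ≠ [] → l.map fC ≠ a ++ a) ∧
      ∀ X : List C, IsP C.toSimpleGraph X → ∀ z, X.getLast? = some z → ∀ j (hj : j < P.length),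
        G.Adj z.1.1 P[j] → ∀ (up : Bool) (m d : ℕ), 1 ≤ m → m ≤ X.length → m ≤ d →
          10 * d ≤ 23 * m → ∃ u, u < m ∧ (X.map fC).getD u 0 ≠ g (pos up j (d - m + 1 + u)) := by
    intro C
    have hT := hAG.isTree_connectedComponent C
    obtain ⟨Q, hQ, -, hcat⟩ := exists_cat C.toSimpleGraph hT.1 (fun x => l x.1.1)
      (fun x => r x.1.1) (fun x => hlr _) (fun x y hxy => hI _ _ hxy) (by
        intro i
        refine le_trans ?_ (hw i)
        refine Set.ncard_le_ncard_of_injOn (fun x : C => (x.1.1 : V)) ?_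
          ((val_inj C).injOn) (Set.toFinite _)
        intro x hx
        exact ⟨x.1.2, hx.1, hx.2⟩)
    by_cases hz : ∃ (z : C) (j : ℕ) (hj : j < P.length), G.Adj z.1.1 P[j]
    · obtain ⟨z, j, hj, hadj⟩ := hz
      obtain ⟨f, h1, h2, h3⟩ := comp C.toSimpleGraph hT.2 Q hQ hcat (fun x => L x.1.1)
        (fun x => hL _) z j g
      refine ⟨f, h1, h2, fun X hX z' hz' j' hj' hadj' up m d hm1 hm2 hm3 hm4 => ?_⟩
      obtain ⟨rfl, rfl⟩ := attach hG hP C z' z hj' hj hadj' hadj
      exact h3 X hX hz' up m d hm1 hm2 hm3 hm4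
    · obtain ⟨z⟩ := hT.1.nonempty
      obtain ⟨f, h1, h2, h3⟩ := comp C.toSimpleGraph hT.2 Q hQ hcat (fun x => L x.1.1)
        (fun x => hL _) z 0 g
      exact ⟨f, h1, h2, fun X hX z' hz' j' hj' hadj' => absurd ⟨z', j', hj', hadj'⟩ hz⟩
  choose F hF1 hF2 hF3 using hcomp
  let f : V → ℕ := fun v => if h : v ∈ P then g (P.idxOf v) else
    F ((RG G P).connectedComponentMk ⟨v, h⟩) ⟨⟨v, h⟩, rfl⟩
  have hfC : ∀ (C : (RG G P).ConnectedComponent) (x : C), f x.1.1 = F C x := by
    rintro C ⟨⟨v, hv⟩, hx⟩
    have hx' : (RG G P).connectedComponentMk ⟨v, hv⟩ = C := hx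
    subst hx'
    exact dif_neg hv
  have hmap : ∀ (C : (RG G P).ConnectedComponent) (X : List C),
      (X.map (fun x => (x.1.1 : V))).map f = X.map (F C) := by
    intro C X
    rw [List.map_map]
    exact List.map_congr_left fun x _ => hfC C x
  have hfP : ∀ i (hi : i < P.length), f P[i] = g i := by
    intro i hi
    have h1 : f P[i] = g (P.idxOf P[i]) := dif_pos (List.getElem_mem hi)
    rw [h1, hP.2.idxOf_getElem i hi]
  refine ⟨f, fun v => ?_, two_level hG hP hfP hS ?_ ?_⟩
  · by_cases hv : v ∈ P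
    · have h1 : f v = g (P.idxOf v) := dif_pos hv
      have h2 := hg (P.idxOf v) (List.idxOf_lt_length_of_mem hv)
      simp only [List.idxOf_lt_length_of_mem hv, dif_pos, List.getElem_idxOf] at h2
      rw [h1]
      exact h2
    · rw [hfC ((RG G P).connectedComponentMk ⟨v, hv⟩) ⟨⟨v, hv⟩, rfl⟩]
      exact hF1 _ _
  · intro w hw' hwP a ha he
    have hne : w ≠ [] := by
      rintro rfl
      rw [List.map_nil] at he
      exact ha (List.append_eq_nil_iff.1 he.symm).1
    obtain ⟨C, l', h1, h2⟩ := lift_path w hne hw'.1 hwP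
    have hp : IsP C.toSimpleGraph l' := ⟨h2, by
      have h3 := hw'.2
      rw [← h1] at h3
      exact h3.of_map _⟩
    rw [← h1, hmap] at he
    exact hF2 C l' hp a ha he
  · intro X hX hXP z hz j hj hadj up m d hm1 hm2 hm3 hm4 _
    have hne : X ≠ [] := by
      rintro rfl
      simp at hz
    obtain ⟨C, l', h1, h2⟩ := lift_path X hne hX.1 hXP
    have hp : IsP C.toSimpleGraph l' := ⟨h2, by
      have h3 := hX.2
      rw [← h1] at h3
      exact h3.of_map _⟩
    rw [← h1, List.getLast?_map] at hz
    obtain ⟨z', hz', rfl⟩ := Option.map_eq_some_iff.1 hz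
    have hlen : X.length = l'.length := by rw [← h1, List.length_map]
    obtain ⟨u, hu, hne'⟩ := hF3 C l' hp z' hz' j hj hadj up m d hm1 (by omega) hm3 hm4
    refine ⟨u, hu, ?_⟩
    rw [← h1, hmap]
    exact hne'

end Pool.Agent.H54R
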