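import Pool.Agent.Lib.H54PT.Def

set_option autoImplicit false

namespace Pool.Agent.H54R

open Pool.Agent.H54Z (NoRep)

/-- a repetition of type `(l,d)` at the head of the word -/
private def Pat (w : List ℕ) (l d : ℕ) : Prop :=
  2 * l + d ≤ w.length ∧ w.take l = (w.drop (l + d)).take l

/-- a forbidden word of length `m` at the head of the word -/
private def EvB (F : ℕ → ℕ → Finset (List ℕ)) (w : List ℕ) (m : ℕ) : Prop :=
  1 ≤ m ∧ m ≤ w.length ∧ w.take m ∈ F (w.length - 1) m

private def Bad (F : ℕ → ℕ → Finset (List ℕ)) (w : List ℕ) : Prop :=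
  Pat w 1 0 ∨ Pat w 2 0 ∨ Pat w 2 1 ∨ (∃ l, 2 ≤ l ∧ Pat w l 2) ∨ ∃ m, EvB F w m

open Classical in
/-- one-letter extensions of the words of `S` -/
private noncomputable def ext (A : Finset ℕ) (S : Finset (List ℕ)) : Finset (List ℕ) :=
  (A ×ˢ S).image (fun p => p.1 :: p.2)

open Classical in
private noncomputable def good (F : ℕ → ℕ → Finset (List ℕ)) (L : ℕ → Finset ℕ) :
    ℕ → Finset (List ℕ)
  | 0 => {[]}
  | n + 1 => (ext (L n) (good F L n)).filter (fun w => ¬ Bad F w)

private theorem mem_ext {A : Finset ℕ} {S : Finset (List ℕ)} {w : List ℕ} :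
    w ∈ ext A S ↔ ∃ a ∈ A, ∃ v ∈ S, w = a :: v := by
  unfold ext
  constructor
  · intro h
    simp only [Finset.mem_image, Finset.mem_product, Prod.exists] at h
    obtain ⟨a, v, ⟨ha, hv⟩, rfl⟩ := h
    exact ⟨a, ha, v, hv, rfl⟩
  · rintro ⟨a, ha, v, hv, rfl⟩
    simp only [Finset.mem_image, Finset.mem_product, Prod.exists]
    exact ⟨a, v, ⟨ha, hv⟩, rfl⟩

private theorem card_ext (A : Finset ℕ) (S : Finset (List ℕ)) :
    (ext A S).card = A.card * S.card := by
  unfold ext
  rw [Finset.card_image_of_injective, Finset.card_product]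
  intro p q h
  simp only [List.cons.injEq] at h
  exact Prod.ext h.1 h.2

variable {F : ℕ → ℕ → Finset (List ℕ)} {L : ℕ → Finset ℕ}

private theorem mem_good_succ {n : ℕ} {w : List ℕ} :
    w ∈ good F L (n + 1) ↔ (∃ a ∈ L n, ∃ v ∈ good F L n, w = a :: v) ∧ ¬ Bad F w := by
  classical
  simp only [good, Finset.mem_filter, mem_ext]

private theorem length_good {n : ℕ} {w : List ℕ} (h : w ∈ good F L n) : w.length = n := by
  induction n generalizing w with
  | zero => simp [good] at h; simp [h]
  | succ n ih =>
    obtain ⟨⟨a, _, v, hv, rfl⟩, _⟩ := mem_good_succ.1 h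
    simp [ih hv]

private theorem drop_good {n k : ℕ} {w : List ℕ} (h : w ∈ good F L (n + k)) :
    w.drop k ∈ good F L n := by
  induction k generalizing w with
  | zero => simpa using h
  | succ k ih =>
    obtain ⟨⟨a, _, v, hv, rfl⟩, _⟩ := mem_good_succ.1 (show w ∈ good F L (n + k + 1) from h)
    simpa using ih hv

private theorem drop_ext {n l : ℕ} {w : List ℕ} (h : w ∈ ext (L n) (good F L n)) (hl : 1 ≤ l)
    (hl2 : l ≤ n + 1) : w.drop l ∈ good F L (n + 1 - l) := by
  obtain ⟨a, _, v, hv, rfl⟩ := mem_ext.1 h
  have h2 : v ∈ good F L ((n + 1 - l) + (l - 1)) := by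
    have : (n + 1 - l) + (l - 1) = n := by omega
    rw [this]; exact hv
  have h3 := drop_good h2
  have h4 : (a :: v).drop l = v.drop (l - 1) := by
    obtain ⟨m, rfl⟩ : ∃ m, l = m + 1 := ⟨l - 1, by omega⟩
    simp
  rw [h4]
  exact h3

private theorem length_ext {n : ℕ} {w : List ℕ} (h : w ∈ ext (L n) (good F L n)) :
    w.length = n + 1 := by
  obtain ⟨a, _, v, hv, rfl⟩ := mem_ext.1 h
  simp [length_good hv]

open Classical in
private theorem card_pat (n l d : ℕ) (hl : 1 ≤ l) :
    ((ext (L n) (good F L n)).filter (fun w => Pat w l d)).card ≤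
      (good F L (n + 1 - l)).card := by
  apply Finset.card_le_card_of_injOn (fun w => w.drop l)
  · intro w hw
    simp only [Finset.coe_filter, Set.mem_ofPred_eq] at hw
    have h1 := hw.2.1
    rw [length_ext hw.1] at h1
    exact drop_ext hw.1 hl (by omega)
  · intro w hw w' hw' he
    simp only [Finset.coe_filter, Set.mem_ofPred_eq] at hw hw'
    simp only at he
    have e1 : w.take l = w'.take l := by
      rw [hw.2.2, hw'.2.2, ← List.drop_drop, ← List.drop_drop, he]
    rw [← List.take_append_drop l w, ← List.take_append_drop l w', e1, he]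

open Classical in
private theorem card_B (n m : ℕ) :
    ((ext (L n) (good F L n)).filter (fun w => EvB F w m)).card ≤
      (F n m).card * (good F L (n + 1 - m)).card := by
  rw [← Finset.card_product]
  apply Finset.card_le_card_of_injOn (fun w => (w.take m, w.drop m))
  · intro w hw
    simp only [Finset.coe_filter, Set.mem_ofPred_eq] at hw
    have h1 := hw.2.2.1
    have h2 := hw.2.2.2
    rw [length_ext hw.1] at h1 h2
    simp only [Finset.coe_product, Set.mem_prod, Finset.mem_coe]
    exact ⟨h2, drop_ext hw.1 hw.2.1 h1⟩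
  · intro w _ w' _ he
    simp only [Prod.mk.injEq] at he
    rw [← List.take_append_drop m w, ← List.take_append_drop m w', he.1, he.2]

open Classical in
private theorem card_patQ (n l d : ℕ) (hl : 1 ≤ l)
    (hdec : ∀ j, j ≤ n → ((good F L (n - j)).card : ℚ) ≤ (good F L n).card * (1 / 4) ^ j) :
    (((ext (L n) (good F L n)).filter (fun w => Pat w l d)).card : ℚ) ≤
      (good F L n).card * (1 / 4) ^ (l - 1) := by
  by_cases h : 2 * l + d ≤ n + 1
  · have h1 := card_pat (F := F) (L := L) n l d hl
    have h2 := hdec (l - 1) (by omega)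
    rw [show n - (l - 1) = n + 1 - l by omega] at h2
    have h3 : (((ext (L n) (good F L n)).filter (fun w => Pat w l d)).card : ℚ) ≤
        (good F L (n + 1 - l)).card := by exact_mod_cast h1
    exact h3.trans h2
  · have h1 : (ext (L n) (good F L n)).filter (fun w => Pat w l d) = ∅ := by
      rw [Finset.filter_eq_empty_iff]
      intro w hw hp
      have h2 := hp.1
      rw [length_ext hw] at h2
      omega
    rw [h1]
    simp only [Finset.card_empty, Nat.cast_zero]
    positivity

open Classical in
private theorem card_BQ (n m : ℕ)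
    (hdec : ∀ j, j ≤ n → ((good F L (n - j)).card : ℚ) ≤ (good F L n).card * (1 / 4) ^ j) :
    (((ext (L n) (good F L n)).filter (fun w => EvB F w (m + 1))).card : ℚ) ≤
      (F n (m + 1)).card * ((good F L n).card * (1 / 4) ^ m) := by
  by_cases h : m ≤ n
  · have h1 := card_B (F := F) (L := L) n (m + 1)
    rw [show n + 1 - (m + 1) = n - m by omega] at h1
    have h2 := hdec m h
    have h3 : (((ext (L n) (good F L n)).filter (fun w => EvB F w (m + 1))).card : ℚ) ≤
        (F n (m + 1)).card * (good F L (n - m)).card := by exact_mod_cast h1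
    exact h3.trans (mul_le_mul_of_nonneg_left h2 (by positivity))
  · have h1 : (ext (L n) (good F L n)).filter (fun w => EvB F w (m + 1)) = ∅ := by
      rw [Finset.filter_eq_empty_iff]
      intro w hw hp
      have h2 := hp.2.1
      rw [length_ext hw] at h2
      omega
    rw [h1]
    simp only [Finset.card_empty, Nat.cast_zero]
    positivity

open Classical in
private theorem card_bad (n : ℕ) :
    ((ext (L n) (good F L n)).filter (fun w => Bad F w)).card ≤
      ((ext (L n) (good F L n)).filter (fun w => Pat w 1 0)).card +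
      ((ext (L n) (good F L n)).filter (fun w => Pat w 2 0)).card +
      ((ext (L n) (good F L n)).filter (fun w => Pat w 2 1)).card +
      (∑ l ∈ Finset.range n, ((ext (L n) (good F L n)).filter (fun w => Pat w (l + 2) 2)).card) +
      (((ext (L n) (good F L n)).filter (fun w => EvB F w (0 + 1))).card +
        ∑ m ∈ Finset.range n,
          ((ext (L n) (good F L n)).filter (fun w => EvB F w (m + 1 + 1))).card) := by
  set E := ext (L n) (good F L n) with hE
  have hsub : E.filter (fun w => Bad F w) ⊆
      (((E.filter (fun w => Pat w 1 0)) ∪ (E.filter (fun w => Pat w 2 0))) ∪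
        (E.filter (fun w => Pat w 2 1))) ∪
        ((Finset.range n).biUnion (fun l => E.filter (fun w => Pat w (l + 2) 2))) ∪
        ((E.filter (fun w => EvB F w (0 + 1))) ∪
          (Finset.range n).biUnion (fun m => E.filter (fun w => EvB F w (m + 1 + 1)))) := by
    intro w hw
    rw [Finset.mem_filter] at hw
    obtain ⟨hwE, hb⟩ := hw
    simp only [Finset.mem_union, Finset.mem_biUnion, Finset.mem_filter, Finset.mem_range]
    have hl := length_ext hwE
    rcases hb with h | h | h | ⟨l, hl2, h⟩ | ⟨m, h⟩
    · left; left; left; left; exact ⟨hwE, h⟩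
    · left; left; left; right; exact ⟨hwE, h⟩
    · left; left; right; exact ⟨hwE, h⟩
    · left; right
      have h1 := h.1
      rw [hl] at h1
      obtain ⟨l', rfl⟩ : ∃ l', l = l' + 2 := ⟨l - 2, by omega⟩
      exact ⟨l', by omega, hwE, h⟩
    · right
      have h1 := h.1
      have h2 := h.2.1
      rw [hl] at h2
      rcases Nat.lt_or_ge 1 m with h3 | h3
      · right
        obtain ⟨m', rfl⟩ : ∃ m', m = m' + 1 + 1 := ⟨m - 2, by omega⟩
        exact ⟨m', by omega, hwE, h⟩
      · left
        obtain rfl : m = 0 + 1 := by omega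
        exact ⟨hwE, h⟩
  refine (Finset.card_le_card hsub).trans ((Finset.card_union_le _ _).trans (add_le_add ?_ ?_))
  · refine (Finset.card_union_le _ _).trans (add_le_add ?_ Finset.card_biUnion_le)
    refine (Finset.card_union_le _ _).trans (add_le_add ?_ le_rfl)
    exact Finset.card_union_le _ _
  · exact (Finset.card_union_le _ _).trans (add_le_add le_rfl Finset.card_biUnion_le)

private theorem sumP (N : ℕ) : ∑ l ∈ Finset.range N, (1 / 4 : ℚ) ^ (l + 1) ≤ 1 / 3 := by
  have h1 : ∀ k : ℕ, ∑ l ∈ Finset.range k, (1 / 4 : ℚ) ^ (l + 1) = 1 / 3 - 1 / 3 * (1 / 4) ^ k := by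
    intro k
    induction k with
    | zero => norm_num
    | succ k ih =>
      rw [Finset.sum_range_succ, ih, pow_succ]
      ring
  rw [h1]
  have h3 : (0 : ℚ) ≤ 1 / 3 * (1 / 4) ^ N := by positivity
  linarith

private theorem sumM (N : ℕ) :
    ∑ m ∈ Finset.range N, (13 * (m : ℚ) + 72) * (1 / 4) ^ (m + 1) ≤ 229 / 9 := by
  have h1 : ∀ k : ℕ, ∑ m ∈ Finset.range k, (13 * (m : ℚ) + 72) * (1 / 4) ^ (m + 1) =
      229 / 9 - (13 / 3 * k + 229 / 9) * (1 / 4) ^ k := by
    intro k
    induction k with
    | zero => norm_num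
    | succ k ih =>
      rw [Finset.sum_range_succ, ih, pow_succ]
      push_cast
      ring
  rw [h1]
  have h3 : (0 : ℚ) ≤ (13 / 3 * N + 229 / 9) * (1 / 4) ^ N := by positivity
  linarith

private theorem growth {n : ℕ} (hL : ∀ i, i < n → 14 ≤ (L i).card)
    (h1 : ∀ x, (F x 1).card ≤ 3) (h2 : ∀ x m, 2 ≤ m → 5 * (F x m).card ≤ 13 * m + 46) :
    ∀ N, N < n → 4 * (good F L N).card ≤ (good F L (N + 1)).card := by
  classical
  intro N
  induction N using Nat.strong_induction_on with
  | _ N ih =>
    intro hN
    -- the numbers decrease at least geometrically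
    have hdec : ∀ j, j ≤ N → ((good F L (N - j)).card : ℚ) ≤ (good F L N).card * (1 / 4) ^ j := by
      intro j
      induction j with
      | zero => intro _; simp
      | succ j ihj =>
        intro hj
        have h1 := ihj (by omega)
        have h2 := ih (N - (j + 1)) (by omega) (by omega)
        rw [show N - (j + 1) + 1 = N - j by omega] at h2
        have h3 : (4 : ℚ) * (good F L (N - (j + 1))).card ≤ (good F L (N - j)).card := by
          exact_mod_cast h2
        rw [pow_succ]
        linarith
    have hb := card_bad (F := F) (L := L) N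
    have h5 := hL N hN
    have hs := Finset.card_filter_add_card_filter_not (s := ext (L N) (good F L N))
      (fun w => Bad F w)
    have hg : (good F L (N + 1)).card =
        ((ext (L N) (good F L N)).filter (fun w => ¬ Bad F w)).card := by
      simp only [good]
    have he : 14 * (good F L N).card ≤ (ext (L N) (good F L N)).card := by
      rw [card_ext]; exact Nat.mul_le_mul_right _ h5
    rw [← hg] at hs
    have hp1 := card_patQ (F := F) (L := L) N 1 0 le_rfl hdec
    have hp2 := card_patQ (F := F) (L := L) N 2 0 (by norm_num) hdec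
    have hp3 := card_patQ (F := F) (L := L) N 2 1 (by norm_num) hdec
    have hp4 : ∀ l, (((ext (L N) (good F L N)).filter (fun w => Pat w (l + 2) 2)).card : ℚ) ≤
        (good F L N).card * (1 / 4) ^ (l + 1) := by
      intro l
      have := card_patQ (F := F) (L := L) N (l + 2) 2 (by omega) hdec
      rwa [show l + 2 - 1 = l + 1 by omega] at this
    have hq1 := card_BQ (F := F) (L := L) N 0 hdec
    have hq2 : ∀ m, (((ext (L N) (good F L N)).filter (fun w => EvB F w (m + 1 + 1))).card : ℚ) ≤
        (F N (m + 1 + 1)).card * ((good F L N).card * (1 / 4) ^ (m + 1)) := fun m =>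
      card_BQ (F := F) (L := L) N (m + 1) hdec
    set a : ℚ := ((good F L N).card : ℚ) with ha
    have ha0 : 0 ≤ a := by rw [ha]; positivity
    have hA : ∑ l ∈ Finset.range N,
        (((ext (L N) (good F L N)).filter (fun w => Pat w (l + 2) 2)).card : ℚ) ≤ 1 / 3 * a := by
      have e1 : ∑ l ∈ Finset.range N,
          (((ext (L N) (good F L N)).filter (fun w => Pat w (l + 2) 2)).card : ℚ) ≤
            ∑ l ∈ Finset.range N, a * (1 / 4) ^ (l + 1) :=
        Finset.sum_le_sum fun l _ => hp4 l
      rw [← Finset.mul_sum] at e1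
      have e2 := mul_le_mul_of_nonneg_left (sumP N) ha0
      linarith
    have hB : ∑ m ∈ Finset.range N,
        (((ext (L N) (good F L N)).filter (fun w => EvB F w (m + 1 + 1))).card : ℚ) ≤
          229 / 45 * a := by
      have e1 : ∑ m ∈ Finset.range N,
          (((ext (L N) (good F L N)).filter (fun w => EvB F w (m + 1 + 1))).card : ℚ) ≤
            ∑ m ∈ Finset.range N, (a / 5) * ((13 * (m : ℚ) + 72) * (1 / 4) ^ (m + 1)) := by
        refine Finset.sum_le_sum fun m _ => (hq2 m).trans ?_
        have e3 : (5 : ℚ) * (F N (m + 1 + 1)).card ≤ 13 * ((m : ℚ) + 1 + 1) + 46 := by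
          exact_mod_cast h2 N (m + 1 + 1) (by omega)
        have e4 : (0 : ℚ) ≤ a * (1 / 4) ^ (m + 1) := by positivity
        have e5 := mul_le_mul_of_nonneg_right
          (show ((F N (m + 1 + 1)).card : ℚ) ≤ (13 * (m : ℚ) + 72) / 5 by linarith) e4
        calc ((F N (m + 1 + 1)).card : ℚ) * (a * (1 / 4) ^ (m + 1))
            ≤ (13 * (m : ℚ) + 72) / 5 * (a * (1 / 4) ^ (m + 1)) := e5
          _ = (a / 5) * ((13 * (m : ℚ) + 72) * (1 / 4) ^ (m + 1)) := by ring
      rw [← Finset.mul_sum] at e1
      have e2 := mul_le_mul_of_nonneg_left (sumM N) (show (0 : ℚ) ≤ a / 5 by positivity)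
      linarith
    have hq1' : (((ext (L N) (good F L N)).filter (fun w => EvB F w (0 + 1))).card : ℚ) ≤
        3 * a := by
      have e1 : ((F N (0 + 1)).card : ℚ) ≤ 3 := by exact_mod_cast h1 N
      have e2 := mul_le_mul_of_nonneg_right e1 ha0
      have e3 : ((F N (0 + 1)).card : ℚ) * (a * (1 / 4) ^ 0) = (F N (0 + 1)).card * a := by ring
      linarith
    have hp1' : (((ext (L N) (good F L N)).filter (fun w => Pat w 1 0)).card : ℚ) ≤ a := by
      have e : a * (1 / 4) ^ (1 - 1) = a := by norm_num
      linarith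
    have hp2' : (((ext (L N) (good F L N)).filter (fun w => Pat w 2 0)).card : ℚ) ≤ a / 4 := by
      have e : a * (1 / 4) ^ (2 - 1) = a / 4 := by norm_num; ring
      linarith
    have hp3' : (((ext (L N) (good F L N)).filter (fun w => Pat w 2 1)).card : ℚ) ≤ a / 4 := by
      have e : a * (1 / 4) ^ (2 - 1) = a / 4 := by norm_num; ring
      linarith
    have hb' : (((ext (L N) (good F L N)).filter (fun w => Bad F w)).card : ℚ) ≤
        (((ext (L N) (good F L N)).filter (fun w => Pat w 1 0)).card : ℚ) +
        (((ext (L N) (good F L N)).filter (fun w => Pat w 2 0)).card : ℚ) +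
        (((ext (L N) (good F L N)).filter (fun w => Pat w 2 1)).card : ℚ) +
        (∑ l ∈ Finset.range N,
          (((ext (L N) (good F L N)).filter (fun w => Pat w (l + 2) 2)).card : ℚ)) +
        ((((ext (L N) (good F L N)).filter (fun w => EvB F w (0 + 1))).card : ℚ) +
          ∑ m ∈ Finset.range N,
            (((ext (L N) (good F L N)).filter (fun w => EvB F w (m + 1 + 1))).card : ℚ)) := by
      exact_mod_cast hb
    have hs' : (((ext (L N) (good F L N)).filter (fun w => Bad F w)).card : ℚ) +
        (good F L (N + 1)).card = (ext (L N) (good F L N)).card := by exact_mod_cast hs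
    have he' : 14 * a ≤ (ext (L N) (good F L N)).card := by
      rw [ha]; exact_mod_cast he
    have hfin : (4 : ℚ) * a ≤ (good F L (N + 1)).card := by linarith
    rw [ha] at hfin
    exact_mod_cast hfin

/-- Counting for the spine of a component with growth 4.

Proof: as `count` in Lib/H54P/A1.lean and `H54Z/C1.lean`, growth 4.  Events at the head of a word
`w` (newest letter first) of length `N + 1` (position `x = N`): `NoRep` of type (1,0): the last
letter is determined: at most `|S N|`; (2,0) and (2,1): the last two letters are determined: at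
most `|S (N-1)| ≤ |S N| / 4` each; (l,2), `l ≥ 2`: the last `l` letters are determined (distance
`l + 2 ≥ l`): `4^(1-l) |S N|`, together `|S N| / 3`; forbidden words of length `m`: at most
`|F x m| 4^(1-m) |S N|`.  Sum:
`4 + 1 + 2/4 + 1/3 + 3 + ∑_(m ≥ 2) (13 m + 46)/5 * 4^(1-m) = 8.8333 + 5.0889 < 14`
(`∑_(m ≥ 2) m 4^(1-m) = 7/9`, `∑_(m ≥ 2) 4^(1-m) = 1/3`). -/
theorem countQ (n : ℕ) (L : ℕ → Finset ℕ) (hL : ∀ i, i < n → 14 ≤ (L i).card)
    (F : ℕ → ℕ → Finset (List ℕ)) (h1 : ∀ x, (F x 1).card ≤ 3)
    (h2 : ∀ x m, 2 ≤ m → 5 * (F x m).card ≤ 13 * m + 46) :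
    ∃ q : ℕ → ℕ, (∀ i, i < n → q i ∈ L i) ∧ NoRep q n 1 0 ∧ NoRep q n 2 0 ∧ NoRep q n 2 1 ∧
      (∀ l, 2 ≤ l → NoRep q n l 2) ∧
      ∀ m x, 1 ≤ m → m ≤ x + 1 → x < n → (List.range m).map (fun u => q (x - u)) ∉ F x m := by
  have hgr := growth (F := F) (L := L) hL h1 h2
  have hpos : ∀ N, N ≤ n → 0 < (good F L N).card := by
    intro N
    induction N with
    | zero => intro _; simp [good]
    | succ N ih =>
      intro hN
      have h1 := hgr N (by omega)
      have h2 := ih (by omega)
      omega
  obtain ⟨w, hw⟩ := Finset.card_pos.1 (hpos n le_rfl)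
  have hlen := length_good hw
  set g : ℕ → ℕ := fun i => (w[n - 1 - i]?).getD 0 with hg
  have hk : ∀ k, k < n → w[k]? = some (g (n - 1 - k)) := by
    intro k hk
    have e : n - 1 - (n - 1 - k) = k := by omega
    simp only [hg, e]
    rw [List.getElem?_eq_getElem (by omega)]
    simp
  have hsuf : ∀ x, x < n → w.drop (n - (x + 1)) ∈ good F L (x + 1) := by
    intro x hx
    have hw' : w ∈ good F L ((x + 1) + (n - (x + 1))) := by
      have : (x + 1) + (n - (x + 1)) = n := by omega
      rw [this]; exact hw
    exact drop_good hw'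
  have hat : ∀ x, x < n → ∀ k, k ≤ x → (w.drop (n - (x + 1)))[k]? = some (g (x - k)) := by
    intro x hx k hkx
    rw [List.getElem?_drop, hk _ (by omega)]
    congr 2
    omega
  have key : ∀ l d, 1 ≤ l → (∀ m v, v ∈ good F L (m + 1) → ¬ Pat v l d) → NoRep g n l d := by
    intro l d hl hno i hi
    by_contra hcon
    push Not at hcon
    have hx : i + 2 * l + d - 1 < n := by omega
    have hd := hsuf _ hx
    refine hno _ _ hd ⟨?_, ?_⟩
    · rw [length_good hd]; omega
    · apply List.ext_getElem?
      intro t
      by_cases ht : t < l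
      · rw [List.getElem?_take_of_lt ht, List.getElem?_take_of_lt ht,
          List.getElem?_drop (i := l + d), hat _ hx _ (by omega), hat _ hx _ (by omega)]
        have := hcon (l - 1 - t) (by omega)
        have e1 : i + 2 * l + d - 1 - t = i + l + d + (l - 1 - t) := by omega
        have e2 : i + 2 * l + d - 1 - (l + d + t) = i + (l - 1 - t) := by omega
        rw [e1, e2, this]
      · rw [List.getElem?_eq_none, List.getElem?_eq_none]
        · rw [List.length_take]; omega
        · rw [List.length_take]; omega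
  refine ⟨g, ?_, ?_, ?_, ?_, ?_, ?_⟩
  · intro i hi
    obtain ⟨⟨a, ha, v, hv, hav⟩, _⟩ := mem_good_succ.1 (hsuf i hi)
    have h0 : (w.drop (n - (i + 1)))[0]? = some a := by rw [hav]; rfl
    rw [hat i hi 0 (by omega)] at h0
    have h1 := Option.some.inj h0
    rw [Nat.sub_zero] at h1
    rw [h1]
    exact ha
  · exact key 1 0 le_rfl (fun m v hv h => (mem_good_succ.1 hv).2 (Or.inl h))
  · exact key 2 0 (by norm_num) (fun m v hv h => (mem_good_succ.1 hv).2 (Or.inr (Or.inl h)))
  · exact key 2 1 (by norm_num)
      (fun m v hv h => (mem_good_succ.1 hv).2 (Or.inr (Or.inr (Or.inl h))))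
  · intro l hl
    exact key l 2 (by omega)
      (fun m v hv h => (mem_good_succ.1 hv).2 (Or.inr (Or.inr (Or.inr (Or.inl ⟨l, hl, h⟩)))))
  · intro m x hm hmx hx hmem
    have hd := hsuf x hx
    refine (mem_good_succ.1 hd).2 (Or.inr (Or.inr (Or.inr (Or.inr ⟨m, hm, ?_, ?_⟩))))
    · rw [length_good hd]; omega
    · have e : (w.drop (n - (x + 1))).take m = (List.range m).map (fun u => g (x - u)) := by
        apply List.ext_getElem?
        intro k
        by_cases hkm : k < m
        · rw [List.getElem?_take_of_lt hkm, hat x hx k (by omega), List.getElem?_map,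
            List.getElem?_range hkm]
          rfl
        · rw [List.getElem?_eq_none, List.getElem?_eq_none]
          · rw [List.length_map, List.length_range]; omega
          · rw [List.length_take]; omega
      rw [length_good hd, Nat.add_sub_cancel, e]
      exact hmem

end Pool.Agent.H54R
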