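import Pool.Agent.Lib.H54PT.Def

set_option autoImplicit false

namespace Pool.Agent.H54R

/-- Word lemma (adapt the proof of `word` in Lib/H54P/A2.lean: only the constants in the cases (3)
and (4) change: `d = p ≤ 2 m`; in case (4) otherwise `23 k < 10 t`, `23 l < 10 t`, so
`t - k - l > 3 t / 23 ≥ t / 8`, hence `T t ≤ t - k - l`). -/
theorem word (g : ℕ → ℕ) (p : ℕ) (hp : 1 ≤ p) (xs ys a : List ℕ) (ha : a ≠ [])
    (h : xs ++ (List.range p).map g ++ ys = a ++ a) :
    (∃ k m d, 1 ≤ m ∧ m ≤ d ∧ 10 * d ≤ 23 * m ∧ d ≤ p ∧ k + m ≤ xs.length ∧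
      ∀ u, u < m → xs.getD (k + u) 0 = g (d - m + u)) ∨
    (∃ k m d, 1 ≤ m ∧ m ≤ d ∧ 10 * d ≤ 23 * m ∧ d ≤ p ∧ k + m ≤ ys.length ∧
      ∀ u, u < m → ys.reverse.getD (k + u) 0 = g (p - 1 - (d - m + u))) ∨
    (∃ t i, 1 ≤ t ∧ i + T t + t ≤ p ∧ ∀ u, u < T t → g (i + u) = g (i + u + t)) := by
  set k := xs.length with hk
  set l := ys.length with hl
  set t := a.length with ht
  have hlen : k + p + l = 2 * t := by
    have h1 := congrArg List.length h
    simp only [List.length_append, List.length_map, List.length_range] at h1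
    omega
  have ht1 : 1 ≤ t := List.length_pos_iff.2 ha
  obtain ⟨W, hX, hG, hY, hP⟩ : ∃ W : ℕ → ℕ, (∀ i, i < k → xs.getD i 0 = W i) ∧
      (∀ v, v < p → g v = W (k + v)) ∧ (∀ j, j < l → ys.getD j 0 = W (k + p + j)) ∧
      (∀ i, i < t → W i = W (i + t)) := by
    refine ⟨fun i => (xs ++ (List.range p).map g ++ ys).getD i 0, ?_, ?_, ?_, ?_⟩
    · intro i hi
      simp only
      rw [List.append_assoc, List.getD_append _ _ _ _ hi]
    · intro v hv
      simp only
      rw [List.append_assoc, List.getD_append_right _ _ _ _ (by omega),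
        List.getD_append _ _ _ _ (by simp; omega)]
      have e : k + v - xs.length = v := by omega
      rw [e]
      simp [List.getD_eq_getElem?_getD, hv]
    · intro j hj
      simp only
      rw [List.getD_append_right _ _ _ _ (by simp; omega)]
      congr 1
      simp
      omega
    · intro i hi
      simp only
      rw [h, List.getD_append _ _ _ _ hi, List.getD_append_right _ _ _ _ (by omega)]
      congr 1
      omega
  have hR : ∀ j, j < l → ys.reverse.getD j 0 = W (k + p + (l - 1 - j)) := by
    intro j hj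
    rw [← hY _ (by omega)]
    rw [List.getD_eq_getElem?_getD, List.getD_eq_getElem?_getD, List.getElem?_reverse (by omega)]
  clear h
  by_cases c1 : t ≤ k
  · left
    refine ⟨k - t, p, p, hp, le_rfl, by omega, le_rfl, by omega, fun u hu => ?_⟩
    rw [hX _ (by omega), hP _ (by omega), hG _ (by omega)]
    congr 1
    omega
  by_cases c2 : t ≤ l
  · right; left
    refine ⟨l - t, p, p, hp, le_rfl, by omega, le_rfl, by omega, fun u hu => ?_⟩
    rw [hR _ (by omega), hG _ (by omega), hP (k + _) (by omega)]
    congr 1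
    omega
  by_cases c3 : p ≤ t
  · by_cases c4 : p ≤ 2 * (t - l)
    · left
      refine ⟨0, t - l, p, by omega, by omega, by omega, le_rfl, by omega, fun u hu => ?_⟩
      rw [hX _ (by omega), hP _ (by omega), hG _ (by omega)]
      congr 1
      omega
    · right; left
      refine ⟨0, t - k, p, by omega, by omega, by omega, le_rfl, by omega, fun u hu => ?_⟩
      rw [hR _ (by omega), hG _ (by omega), hP (k + _) (by omega)]
      congr 1
      omega
  by_cases c5 : 10 * t ≤ 23 * k
  · left
    refine ⟨0, k, t, by omega, by omega, by omega, by omega, by omega, fun u hu => ?_⟩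
    rw [hX _ (by omega), hP _ (by omega), hG _ (by omega)]
    congr 1
    omega
  by_cases c6 : 10 * t ≤ 23 * l
  · right; left
    refine ⟨0, l, t, by omega, by omega, by omega, by omega, by omega, fun u hu => ?_⟩
    rw [hR _ (by omega), hG _ (by omega), hP (k + _) (by omega)]
    congr 1
    omega
  right; right
  refine ⟨t, 0, ht1, by unfold T; omega, fun u hu => ?_⟩
  unfold T at hu
  rw [hG _ (by omega), hG _ (by omega), hP _ (by omega)]
  congr 1
  omega

end Pool.Agent.H54R
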