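import Pool.Agent.Lib.H54PT.R2

/-! H54PT, chunk R5 (helper51) -/

set_option autoImplicit false

namespace Pool.Agent.H54R

open Pool.Agent.H54P (pos Fits)

private theorem r5_card (m : ℕ) (hm : 2 ≤ m) (w : Bool × ℕ → List ℕ) :
    5 * (((Finset.univ : Finset Bool) ×ˢ Finset.Icc m (23 * (m + 2) / 10 - 1)).image w).card ≤ 13 * m + 46 := by
  have h1 := Finset.card_image_le (s := (Finset.univ : Finset Bool) ×ˢ Finset.Icc m (23 * (m + 2) / 10 - 1))
    (f := w)
  rw [Finset.card_product, Nat.card_Icc, Finset.card_univ, Fintype.card_bool] at h1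
  omega

private theorem r5_mem {m d : ℕ} (hm : m ≤ d) (hd : 10 * (d + 1) ≤ 23 * (m + 2)) (up : Bool) :
    (up, d) ∈ (Finset.univ : Finset Bool) ×ˢ Finset.Icc m (23 * (m + 2) / 10 - 1) := by
  rw [Finset.mem_product, Finset.mem_Icc]
  refine ⟨Finset.mem_univ _, hm, ?_⟩
  omega

/-- The forbidden words. -/
private def r5_F (a j : ℕ) (g : ℕ → ℕ) (x m : ℕ) : Finset (List ℕ) :=
  if m = 1 then {[g j], [g (pos true j 2)], [g (pos false j 2)]}
  else if x ≤ a then ((Finset.univ : Finset Bool) ×ˢ Finset.Icc m (23 * (m + 2) / 10 - 1)).image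
    fun bd => (List.range m).map fun u => g (pos bd.1 j (bd.2 - u))
  else ((Finset.univ : Finset Bool) ×ˢ Finset.Icc m (23 * (m + 2) / 10 - 1)).image
    fun bd => (List.range m).map fun u => g (pos bd.1 j (bd.2 - m + 1 + u))

/-- The word on the spine of a component.

Proof.  `countQ` with `F x 1 = {[g j], [g (pos true j 2)], [g (pos false j 2)]}`
(`pos up j 1 = j`) and for `m ≥ 2` the image of `Bool × {d : m ≤ d, 10 (d+1) ≤ 23 (m+2)}` under
`d ↦ (List.range m).map (fun u => g (pos up j (d - u)))` if `x ≤ a` (the word read towards `a`, so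
backwards in the newest-first order) and
`d ↦ (List.range m).map (fun u => g (pos up j (d - m + 1 + u)))` if `a < x`.  The number of `d` is
at most `23 (m+2) / 10 - m` and `5 * 2 * (23 (m+2)/10 - m) ≤ 13 m + 46`. -/
theorem exists_QW (n a j : ℕ) (g : ℕ → ℕ) (L : ℕ → Finset ℕ)
    (hL : ∀ i, i < n → 14 ≤ (L i).card) :
    ∃ q : ℕ → ℕ, (∀ i, i < n → q i ∈ L i) ∧ QW n a j g q := by
  obtain ⟨q, hq, h10, h20, h21, h2, hF⟩ := countQ n L hL (r5_F a j g)
    (fun x => by
      unfold r5_F
      rw [if_pos rfl]
      exact Finset.card_le_three)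
    (fun x m hm => by
      unfold r5_F
      rw [if_neg (by omega)]
      split_ifs
      · exact r5_card m hm _
      · exact r5_card m hm _)
  refine ⟨q, hq, ⟨h10, h20, h21, h2, ?_, ?_, ?_⟩⟩
  · intro x hx up d hd1 hd2 he
    apply hF 1 x le_rfl (by omega) hx
    have hw : (List.range 1).map (fun u => q (x - u)) = [g (pos up j d)] := by
      rw [← he]
      rfl
    rw [hw]
    unfold r5_F
    rw [if_pos rfl]
    rcases (by omega : d = 1 ∨ d = 2) with rfl | rfl
    · have hp : pos up j 1 = j := by
        unfold pos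
        split_ifs <;> omega
      rw [hp]
      simp
    · cases up <;> simp
  · intro x m hm hmx hx hxa up d hmd hd
    by_contra hcon
    push Not at hcon
    apply hF m x (by omega) hmx hx
    unfold r5_F
    rw [if_neg (by omega), if_pos hxa, Finset.mem_image]
    refine ⟨(up, d), r5_mem hmd hd up, ?_⟩
    apply List.map_congr_left
    intro u hu
    rw [List.mem_range] at hu
    have h := hcon (m - 1 - u) (by omega)
    rw [show x + 1 - m + (m - 1 - u) = x - u by omega,
      show d - m + 1 + (m - 1 - u) = d - u by omega] at h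
    exact h.symm
  · intro x m hm hmx hx hxa up d hmd hd
    by_contra hcon
    push Not at hcon
    apply hF m x (by omega) hmx hx
    unfold r5_F
    rw [if_neg (by omega), if_neg (by omega), Finset.mem_image]
    refine ⟨(up, d), r5_mem hmd hd up, ?_⟩
    apply List.map_congr_left
    intro u hu
    rw [List.mem_range] at hu
    exact (hcon u hu).symm

end Pool.Agent.H54R
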