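import Pool.Agent.Lib.H54PT.R5

set_option autoImplicit false

namespace Pool.Agent.H54R

open Pool.Agent.H54Z (IsP NoRep)
open Pool.Agent.H54P (pos Fits)

variable {V : Type} {G : SimpleGraph V}

private theorem r6_colour (g q : ℕ → ℕ) (i j : ℕ) (S : Finset ℕ) (hS : 14 ≤ S.card) :
    ∃ c ∈ S, (c ≠ q (i - 1) ∧ c ≠ q i ∧ c ≠ q (i + 1) ∧ c ≠ q (i + 2)) ∧
      ∀ (up : Bool) (d : ℕ), 1 ≤ d → d ≤ 5 → c ≠ g (pos up j d) := by
  classical
  have hcard : (({q (i - 1), q i, q (i + 1), q (i + 2)} : Finset ℕ) ∪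
      (Finset.range 9).image (fun t => g (j + t - 4))).card < S.card := by
    refine lt_of_le_of_lt (Finset.card_union_le _ _) ?_
    have h1 : ({q (i - 1), q i, q (i + 1), q (i + 2)} : Finset ℕ).card ≤ 4 := Finset.card_le_four
    have h2 : ((Finset.range 9).image (fun t => g (j + t - 4))).card ≤ 9 :=
      Finset.card_image_le.trans (by simp)
    omega
  obtain ⟨c, hc, hcn⟩ := Finset.exists_mem_notMem_of_card_lt_card hcard
  rw [Finset.mem_union, not_or] at hcn
  obtain ⟨h1, h2⟩ := hcn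
  simp only [Finset.mem_insert, Finset.mem_singleton, not_or] at h1
  refine ⟨c, hc, ⟨h1.1, h1.2.1, h1.2.2.1, h1.2.2.2⟩, fun up d hd1 hd5 h => h2 ?_⟩
  rw [Finset.mem_image]
  cases up
  · refine ⟨d + 3, Finset.mem_range.2 (by omega), ?_⟩
    rw [h]
    simp only [pos, Bool.false_eq_true, if_false]
    exact congrArg g (by omega)
  · refine ⟨5 - d, Finset.mem_range.2 (by omega), ?_⟩
    rw [h]
    simp only [pos, if_true]
    exact congrArg g (by omega)

/-- The colouring of a component with the spine `Q`.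

Proof (as in `caterpillar` in Lib/H54Z/M.lean).  `q` from `exists_QW`; `f v = q (Q.idxOf v)` for
`v ∈ Q`; a vertex `v ∉ Q` is adjacent to exactly one `Q[i]` (`H54Z.attach_unique` with `l = [v]`)
and gets a colour of its list different from `q (i-1), q i, q (i+1), q (i+2)` and from the nine
colours `g (pos up j d)`, `1 ≤ d ≤ 5` (`pos up j 1 = j`): 13 colours. -/
theorem comp_colour (hG : G.IsAcyclic) {Q : List V} (hQ : IsP G Q)
    (hcat : ∀ v, v ∈ Q ∨ ∃ u ∈ Q, G.Adj v u) (L : V → Finset ℕ) (hL : ∀ v, 14 ≤ (L v).card)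
    (a j : ℕ) (g : ℕ → ℕ) :
    ∃ (f : V → ℕ) (q : ℕ → ℕ), (∀ v, f v ∈ L v) ∧ QW Q.length a j g q ∧
      (∀ i (hi : i < Q.length), f Q[i] = q i) ∧
      (∀ v, v ∉ Q → ∀ i (hi : i < Q.length), G.Adj v Q[i] →
        f v ≠ q (i - 1) ∧ f v ≠ q i ∧ f v ≠ q (i + 1) ∧ f v ≠ q (i + 2)) ∧
      ∀ v, v ∉ Q → ∀ (up : Bool) (d : ℕ), 1 ≤ d → d ≤ 5 → f v ≠ g (pos up j d) := by
  classical
  obtain ⟨q, hq, hQW⟩ := exists_QW Q.length a j g
    (fun i => if h : i < Q.length then L Q[i] else ∅) (by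
      intro i hi
      simp only [hi, dif_pos]
      exact hL _)
  have hidx : ∀ v, v ∉ Q → ∃ i, ∃ (hi : i < Q.length), G.Adj v Q[i] := by
    intro v hv
    rcases hcat v with h | ⟨u, hu, hadj⟩
    · exact absurd h hv
    · obtain ⟨i, hi, rfl⟩ := List.mem_iff_getElem.1 hu
      exact ⟨i, hi, hadj⟩
  have hcol : ∀ v, ∃ c ∈ L v, v ∉ Q → ((∀ i (hi : i < Q.length), G.Adj v Q[i] →
      c ≠ q (i - 1) ∧ c ≠ q i ∧ c ≠ q (i + 1) ∧ c ≠ q (i + 2)) ∧
      ∀ (up : Bool) (d : ℕ), 1 ≤ d → d ≤ 5 → c ≠ g (pos up j d)) := by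
    intro v
    by_cases hv : v ∈ Q
    · obtain ⟨c, hc⟩ := Finset.card_pos.1 (lt_of_lt_of_le (by norm_num) (hL v))
      exact ⟨c, hc, fun h => absurd hv h⟩
    · obtain ⟨i, hi, hadj⟩ := hidx v hv
      obtain ⟨c, hc, hc1, hc2⟩ := r6_colour g q i j (L v) (hL v)
      refine ⟨c, hc, fun _ => ⟨fun k hk hadj' => ?_, hc2⟩⟩
      have hij : i = k := H54Z.attach_unique hG hQ (l := [v]) ⟨by simp, by simp⟩
        (by simpa using hv) (x := v) (y := v) (by simp) (by simp) hi hk hadj hadj'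
      subst hij
      exact hc1
  choose c hc hc' using hcol
  set f : V → ℕ := fun v => if v ∈ Q then q (Q.idxOf v) else c v with hf
  have hfQ : ∀ i (hi : i < Q.length), f Q[i] = q i := by
    intro i hi
    simp only [hf, List.getElem_mem, if_true]
    rw [hQ.2.idxOf_getElem]
  refine ⟨f, q, ?_, hQW, hfQ, ?_, ?_⟩
  · intro v
    by_cases hv : v ∈ Q
    · obtain ⟨i, hi, rfl⟩ := List.mem_iff_getElem.1 hv
      rw [hfQ]
      have := hq i hi
      simpa only [hi, dif_pos] using this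
    · simp only [hf, hv, if_false]
      exact hc v
  · intro v hv i hi hadj
    simp only [hf, hv, if_false]
    exact (hc' v hv).1 i hi hadj
  · intro v hv up d hd1 hd5
    simp only [hf, hv, if_false]
    exact (hc' v hv).2 up d hd1 hd5

end Pool.Agent.H54R
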